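import Mathlib
import Pool.Agent.Q35.Auto

namespace Pool.Agent.Q40.Misc.Eleven

open PowerSeries Pool.Agent.Q35 Pool.Agent.Q35.Auto

/-- `A m k n`, the number of `k`-colored `m`-ary partitions of `n`: the coefficient of `x^n` in the
`k`-th power of the product over `i` of `1/(1 - x^(m^i))`; the factors with `i > n` do not influence
this coefficient, and `1/(1-x^d)` is written as the series with coefficient `1` at the multiples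
of `d` and `0` elsewhere. -/
noncomputable def A (m k n : ℕ) : ℕ :=
  coeff n ((∏ i ∈ Finset.range (n + 1), mk fun j => if m ^ i ∣ j then (1 : ℕ) else 0) ^ k)

/-- the states of the automaton -/
def Ns : List (List ℕ) :=
  [[1], [0, 0, 0, 0, 0, 0, 21, 28, 16], [0, 0, 0, 0, 0, 0, 31, 28, 16],
   [0, 0, 0, 0, 0, 0, 0, 0, 0, 9, 24], [0, 0, 0, 0, 0, 0, 0, 0, 0, 21, 24],
   [0, 0, 0, 0, 0, 0, 0, 0, 0, 19, 24], [0, 0, 0, 0, 0, 0, 0, 0, 0, 31, 24],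
   [0, 0, 0, 0, 0, 0, 0, 0, 0, 0, 9, 16, 8], [0, 0, 0, 0, 0, 0, 0, 0, 0, 0, 0, 4, 8],
   [0, 0, 0, 0, 0, 0, 0, 0, 0, 0, 21, 16, 8], [0, 0, 0, 0, 0, 0, 0, 0, 0, 0, 0, 20, 8],
   [0, 0, 0, 0, 0, 0, 0, 0, 0, 0, 19, 0, 24], [0, 0, 0, 0, 0, 0, 0, 0, 0, 0, 0, 28, 24],
   [0, 0, 0, 0, 0, 0, 0, 0, 0, 0, 31, 0, 24], [0, 0, 0, 0, 0, 0, 0, 0, 0, 0, 0, 12, 24],
   [0, 0, 0, 0, 0, 0, 0, 0, 0, 0, 0, 13, 4, 16], [0, 0, 0, 0, 0, 0, 0, 0, 0, 0, 0, 9, 28, 16],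
   [0, 0, 0, 0, 0, 0, 0, 0, 0, 0, 0, 28, 16], [0, 0, 0, 0, 0, 0, 0, 0, 0, 0, 0, 0, 16],
   [0, 0, 0, 0, 0, 0, 0, 0, 0, 0, 0, 9, 20, 16], [0, 0, 0, 0, 0, 0, 0, 0, 0, 0, 0, 21, 12, 16],
   [0, 0, 0, 0, 0, 0, 0, 0, 0, 0, 0, 12, 16], [0, 0, 0, 0, 0, 0, 0, 0, 0, 0, 0, 15, 12, 16],
   [0, 0, 0, 0, 0, 0, 0, 0, 0, 0, 0, 19, 20, 16], [0, 0, 0, 0, 0, 0, 0, 0, 0, 0, 0, 4, 16],
   [0, 0, 0, 0, 0, 0, 0, 0, 0, 0, 0, 11, 28, 16], [0, 0, 0, 0, 0, 0, 0, 0, 0, 0, 0, 31, 4, 16],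
   [0, 0, 0, 0, 0, 0, 0, 0, 0, 0, 0, 20, 16], [0, 0, 0, 0, 0, 0, 0, 0, 0, 0, 0, 19, 30, 16],
   [0, 0, 0, 0, 0, 0, 0, 0, 0, 0, 0, 0, 26], [0, 0, 0, 0, 0, 0, 0, 0, 0, 0, 0, 23, 14, 16],
   [0, 0, 0, 0, 0, 0, 0, 0, 0, 0, 0, 0, 10], [0, 0, 0, 0, 0, 0, 0, 0, 0, 0, 0, 0, 24],
   [0, 0, 0, 0, 0, 0, 0, 0, 0, 0, 0, 23, 6, 16], [0, 0, 0, 0, 0, 0, 0, 0, 0, 0, 0, 0, 18],
   [0, 0, 0, 0, 0, 0, 0, 0, 0, 0, 0, 11, 22, 16], [0, 0, 0, 0, 0, 0, 0, 0, 0, 0, 0, 0, 2],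
   [0, 0, 0, 0, 0, 0, 0, 0, 0, 0, 0, 17, 10, 16], [0, 0, 0, 0, 0, 0, 0, 0, 0, 0, 0, 0, 30],
   [0, 0, 0, 0, 0, 0, 0, 0, 0, 0, 0, 13, 26, 16], [0, 0, 0, 0, 0, 0, 0, 0, 0, 0, 0, 0, 14],
   [0, 0, 0, 0, 0, 0, 0, 0, 0, 0, 0, 0, 8], [0, 0, 0, 0, 0, 0, 0, 0, 0, 0, 0, 21, 18, 16],
   [0, 0, 0, 0, 0, 0, 0, 0, 0, 0, 0, 0, 22], [0, 0, 0, 0, 0, 0, 0, 0, 0, 0, 0, 1, 2, 16],
   [0, 0, 0, 0, 0, 0, 0, 0, 0, 0, 0, 0, 6], [0, 0, 0, 0, 0, 0, 0, 0, 0, 0, 0, 13, 20],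
   [0, 0, 0, 0, 0, 0, 0, 0, 0, 0, 0, 0, 4, 16], [0, 0, 0, 0, 0, 0, 0, 0, 0, 0, 0, 0, 10, 16],
   [0, 0, 0, 0, 0, 0, 0, 0, 0, 0, 0, 0, 6, 16], [0, 0, 0, 0, 0, 0, 0, 0, 0, 0, 0, 9, 12],
   [0, 0, 0, 0, 0, 0, 0, 0, 0, 0, 0, 0, 12, 16], [0, 0, 0, 0, 0, 0, 0, 0, 0, 0, 0, 0, 26, 16],
   [0, 0, 0, 0, 0, 0, 0, 0, 0, 0, 0, 0, 22, 16], [0, 0, 0, 0, 0, 0, 0, 0, 0, 0, 0, 9, 4],
   [0, 0, 0, 0, 0, 0, 0, 0, 0, 0, 0, 0, 20, 16], [0, 0, 0, 0, 0, 0, 0, 0, 0, 0, 0, 0, 2, 16],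
   [0, 0, 0, 0, 0, 0, 0, 0, 0, 0, 0, 0, 14, 16], [0, 0, 0, 0, 0, 0, 0, 0, 0, 0, 0, 21, 28],
   [0, 0, 0, 0, 0, 0, 0, 0, 0, 0, 0, 0, 28, 16], [0, 0, 0, 0, 0, 0, 0, 0, 0, 0, 0, 0, 18, 16],
   [0, 0, 0, 0, 0, 0, 0, 0, 0, 0, 0, 0, 30, 16], [0, 0, 0, 0, 0, 0, 0, 0, 0, 0, 0, 15, 28],
   [0, 0, 0, 0, 0, 0, 0, 0, 0, 0, 0, 19, 4], [0, 0, 0, 0, 0, 0, 0, 0, 0, 0, 0, 11, 12],
   [0, 0, 0, 0, 0, 0, 0, 0, 0, 0, 0, 31, 20], [0, 0, 0, 0, 0, 0, 0, 0, 0, 0, 0, 0, 20],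
   [0, 0, 0, 0, 0, 0, 0, 0, 0, 0, 0, 0, 28], [0, 0, 0, 0, 0, 0, 0, 0, 0, 0, 0, 0, 4],
   [0, 0, 0, 0, 0, 0, 0, 0, 0, 0, 0, 0, 12]]

/-- the residues that occur -/
def good (v : ℕ) : Bool := [1, 2, 4, 6, 8, 10, 11, 12, 13, 14, 16, 17, 18, 19, 20, 21, 22, 23, 24, 26, 28, 30].contains v

theorem check_true : check 32 2 0 11 good [] Ns = true := by decide +kernel

theorem cast_A (k n : ℕ) (f : PowerSeries (ZMod 32)) (hf : f = U ^ k * E 2 f)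
    (h0 : coeff 0 f = 1) : ((A 2 k n : ℕ) : ZMod 32) = coeff n f := by
  have h := cast_coeff (R := ZMod 32) 2 0 k n (n + 1)
  simp only [pow_zero, one_mul] at h
  rw [A, h]
  have h2 := coeff_geo_prod (R := ZMod 32) (b := 2) le_rfl k f hf h0 n (n + 1)
    (Nat.lt_succ_self n) 1
  rwa [one_mul, one_mul] at h2

theorem residues (n : ℕ) : good (A 2 11 n % 32) = true := by
  obtain ⟨g, hg, h0⟩ := exists_func (R := ZMod 32) (b := 2) le_rfl (U ^ 11) (by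
    rw [coeff_zero_eq_constantCoeff_apply, map_pow, ← coeff_zero_eq_constantCoeff_apply,
      coeff_zero_U, one_pow])
  have hA : Ser 32 2 0 11 g := ⟨⟨g, by rw [mul_comm]; exact hg, by rw [pow_zero, mul_one]⟩, by
    rw [← coeff_zero_eq_constantCoeff_apply, h0]⟩
  have hc := check_true
  simp only [check, Bool.and_eq_true, List.all_eq_true] at hc
  have hmem : [1] ∈ Ns := by decide
  obtain ⟨v, hv, hv2⟩ := chkN_all (M := 32) (b := 2) (by norm_num) hA le_rfl good Ns hc.1 n [1] hmem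
  have h1 : evU 32 [1] = 1 := by simp [evU]
  rw [h1, one_mul, ← cast_A 11 n g hg h0] at hv2
  have h2 := (ZMod.natCast_eq_natCast_iff' _ _ 32).mp hv2
  rw [h2]
  have h3 : v < 32 := by
    by_contra hcon
    simp only [good, List.contains_eq_mem, List.mem_cons, List.not_mem_nil, or_false,
      decide_eq_true_eq] at hv
    omega
  rw [Nat.mod_eq_of_lt h3]
  exact hv

theorem not_dvd (n : ℕ) : ¬ 32 ∣ A 2 11 n := by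
  intro h
  have h1 := residues n
  rw [Nat.mod_eq_zero_of_dvd h] at h1
  exact absurd h1 (by decide)

/-- For `p = 2` and `k = 11`, which is not of the form `(p-1)(u p^s - 1)` with `1 ≤ u ≤ p-1`, the
2-adic valuation of `A 2 11 n` is at most `4` for every `n`. -/
theorem result :
    (∀ n : ℕ, 1 ≤ A 2 11 n ∧ padicValNat 2 (A 2 11 n) ≤ 4) ∧
    ∃ p k : ℕ, p.Prime ∧ 1 ≤ k ∧
      (¬ ∃ s u : ℕ, 1 ≤ u ∧ u ≤ p - 1 ∧ k = (p - 1) * (u * p ^ s - 1)) ∧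
      ∃ C : ℕ, ∀ n : ℕ, padicValNat p (A p k n) ≤ C := by
  have : Fact (Nat.Prime 2) := ⟨Nat.prime_two⟩
  have key : ∀ n : ℕ, 1 ≤ A 2 11 n ∧ padicValNat 2 (A 2 11 n) ≤ 4 := by
    intro n
    have h := not_dvd n
    have h0 : A 2 11 n ≠ 0 := by
      intro h1
      rw [h1] at h
      exact h (dvd_zero 32)
    refine ⟨Nat.one_le_iff_ne_zero.mpr h0, ?_⟩
    by_contra hcon
    apply h
    have := (padicValNat_dvd_iff_le (p := 2) (n := 5) h0).mpr (by omega)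
    norm_num at this
    exact this
  refine ⟨key, 2, 11, Nat.prime_two, by norm_num, ?_, 4, fun n => (key n).2⟩
  rintro ⟨s, u, h1, h2, h3⟩
  have hu : u = 1 := by omega
  subst hu
  have h4 : 2 ^ s = 12 := by omega
  have h5 : s < 4 := by
    by_contra hs
    have : 2 ^ 4 ≤ 2 ^ s := Nat.pow_le_pow_right (by norm_num) (by omega)
    omega
  interval_cases s <;> omega

end Pool.Agent.Q40.Misc.Eleven
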